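import Pool.Agent.K3C.Main

/-! Almost disjoint triangles in space: the trivial upper bound `n (n - 1) / 6` is
asymptotically sharp (MP_a19305_co). -/

set_option autoImplicit false

namespace Pool.Agent.Results.MP_a19305_co.Asymptotic

open Pool.Agent.H42K Filter Topology

/-- `T n` is the maximum of the set of sizes of almost disjoint families of triangles spanned by
`n` points of space. It is at least `(n - 2) (n - 5) / 6` for every `n ≥ 2`, it is at least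
`3 m (m - 1) / 2 = n (n - 3) / 6` for `n = 3 m`, it is at most `n (n - 1) / 6`, and so
`T n / n ^ 2` tends to `1 / 6`; for every `c < 1 / 6` it is at least `c n ^ 2` for all large
`n`. -/
theorem result :
    (∀ n : ℕ, IsGreatest (sizes n) (T n)) ∧
    (∀ n : ℕ, 2 ≤ n → ((n : ℝ) - 2) * ((n : ℝ) - 5) / 6 ≤ (T n : ℝ)) ∧
    (∀ m : ℕ, 3 * m * (m - 1) ≤ 2 * T (3 * m)) ∧
    (∀ n : ℕ, (T n : ℝ) ≤ (n : ℝ) * ((n : ℝ) - 1) / 6) ∧
    Tendsto (fun n : ℕ => (T n : ℝ) / (n : ℝ) ^ 2) atTop (𝓝 (1 / 6)) ∧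
    ∀ c : ℝ, c < 1 / 6 → ∃ n₀ : ℕ, ∀ n : ℕ, n₀ ≤ n → c * (n : ℝ) ^ 2 ≤ (T n : ℝ) := by
  obtain ⟨h1, h2, h3, h4, h5⟩ := Pool.Agent.K3C.main
  refine ⟨h1, h2, h4, h3, h5, fun c hc => ?_⟩
  obtain ⟨n₁, hn₁⟩ := eventually_atTop.1 (h5.eventually (lt_mem_nhds hc))
  refine ⟨max n₁ 1, fun n hn => ?_⟩
  have h6 := hn₁ n (le_trans (le_max_left _ _) hn)
  have h7 : (0 : ℝ) < n := by
    have : 1 ≤ n := le_trans (le_max_right _ _) hn
    exact_mod_cast this
  have h8 : (0 : ℝ) < (n : ℝ) ^ 2 := by positivity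
  exact ((lt_div_iff₀ h8).1 h6).le

end Pool.Agent.Results.MP_a19305_co.Asymptotic
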