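import Mathlib

set_option autoImplicit false

/-!
# Quadratically many almost disjoint triangles in space (MP_a19305_co, Q2)
-/

namespace Pool.Agent.Results.MP_a19305_co.Quadratic

open Filter

/-- Euclidean three-space. -/
abbrev E3 : Type := EuclideanSpace ℝ (Fin 3)

/-- `t` is the vertex set of a triangle spanned by `P`: three non-collinear points of `P`. -/
def IsTriangle (P t : Finset E3) : Prop :=
  t ⊆ P ∧ t.card = 3 ∧ ¬ Collinear ℝ (t : Set E3)

/-- The closed triangle with vertex set `t`: its convex hull. -/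
def tri (t : Finset E3) : Set E3 := convexHull ℝ (t : Set E3)

/-- Two triangles are disjoint, or meet in exactly one point, which is a vertex of both. -/
def AlmostDisjoint (s t : Finset E3) : Prop :=
  Disjoint (tri s) (tri t) ∨ ∃ v, v ∈ s ∧ v ∈ t ∧ tri s ∩ tri t = {v}

/-- `F` is an almost disjoint family of triangles spanned by `P`
(a triangle is recorded by its set of vertices). -/
def IsAlmostDisjointFamily (P : Finset E3) (F : Finset (Finset E3)) : Prop :=
  (∀ t ∈ F, IsTriangle P t) ∧ ∀ s ∈ F, ∀ t ∈ F, s ≠ t → AlmostDisjoint s t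

/-- The set of sizes of almost disjoint families of triangles spanned by `n` points of space. -/
def sizes (n : ℕ) : Set ℕ :=
  {k | ∃ P : Finset E3, P.card = n ∧
    ∃ F : Finset (Finset E3), IsAlmostDisjointFamily P F ∧ F.card = k}

/-- `T n`: the largest size of an almost disjoint family of triangles spanned by `n` points. -/
noncomputable def T (n : ℕ) : ℕ := sSup (sizes n)

/-! ### General facts -/

lemma sizes_bddAbove (n : ℕ) : BddAbove (sizes n) := by
  refine ⟨2 ^ n, ?_⟩
  rintro k ⟨P, hP, F, hF, rfl⟩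
  have : F ⊆ P.powerset := fun t ht => Finset.mem_powerset.2 (hF.1 t ht).1
  calc F.card ≤ P.powerset.card := Finset.card_le_card this
    _ = 2 ^ n := by rw [Finset.card_powerset, hP]

lemma le_T {n k : ℕ} (h : k ∈ sizes n) : k ≤ T n := le_csSup (sizes_bddAbove n) h

lemma T_isGreatest (n : ℕ) : IsGreatest (sizes n) (T n) := by
  refine ⟨Nat.sSup_mem ?_ (sizes_bddAbove n), fun k hk => le_T hk⟩
  obtain ⟨P, -, hP⟩ := Infinite.exists_superset_card_eq (∅ : Finset E3) n (by simp)
  exact ⟨0, P, hP, ∅, ⟨by simp, by simp⟩, rfl⟩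

/-- If the common points of two triangles are common vertices, they are almost disjoint. -/
lemma almostDisjoint_of {s t : Finset E3}
    (h : ∀ x, x ∈ tri s → x ∈ tri t → x ∈ s ∧ x ∈ t) : AlmostDisjoint s t := by
  classical
  by_cases hd : Disjoint (tri s) (tri t)
  · exact Or.inl hd
  · right
    rw [Set.not_disjoint_iff] at hd
    obtain ⟨v, hvs, hvt⟩ := hd
    obtain ⟨h1, h2⟩ := h v hvs hvt
    refine ⟨v, h1, h2, ?_⟩
    have hconv : Convex ℝ (tri s ∩ tri t) :=
      (convex_convexHull ℝ _).inter (convex_convexHull ℝ _)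
    have hfin : (tri s ∩ tri t).Finite :=
      (s.finite_toSet).subset (fun x hx => by simpa using (h x hx.1 hx.2).1)
    apply Set.eq_singleton_iff_unique_mem.2
    refine ⟨⟨hvs, hvt⟩, fun y hy => ?_⟩
    by_contra hne
    have hseg : segment ℝ v y ⊆ tri s ∩ tri t := hconv.segment_subset ⟨hvs, hvt⟩ hy
    have hinf : (segment ℝ v y).Infinite := by
      rw [segment_eq_image_lineMap]
      apply Set.Infinite.image
      · intro a _ b _ hab
        exact (AffineMap.lineMap_injective ℝ (Ne.symm hne)) hab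
      · exact Set.Icc_infinite (by norm_num)
    exact hinf (hfin.subset hseg)

/-! ### The two exponential sequences -/

/-- `U M x = M ^ (2 x)`. -/
noncomputable def U (M : ℝ) (x : ℕ) : ℝ := M ^ (2 * x)

/-- `V M x = M ^ (- 2 x)`. -/
noncomputable def V (M : ℝ) (x : ℕ) : ℝ := (M ^ (2 * x))⁻¹

/-- `lam M L = M ^ (2 L + 1)`. -/
noncomputable def lam (M : ℝ) (L : ℕ) : ℝ := M ^ (2 * L + 1)

/-- `g M l x = U x - l * V x`. -/
noncomputable def g (M l : ℝ) (x : ℕ) : ℝ := U M x - l * V M x

lemma key_pow {M : ℝ} {a b : ℕ} (ha : 1 ≤ a) (hM : 2 * ((a : ℝ) + b) ≤ M) (hM1 : 1 ≤ M) :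
    ((a : ℝ) + b) * M ^ (2 * b) ≤ M ^ (2 * (a + b)) / 2 := by
  have h1 : M ^ (2 * (a + b)) = M ^ (2 * b) * M ^ (2 * a) := by rw [← pow_add]; congr 1; ring
  have h2 : M ≤ M ^ (2 * a) := by
    calc M = M ^ 1 := (pow_one M).symm
      _ ≤ M ^ (2 * a) := pow_le_pow_right₀ hM1 (by omega)
  have h3 : 0 ≤ M ^ (2 * b) := by positivity
  rw [h1]
  nlinarith

/-- Above the threshold the chord over `(i, i + a + b)` lies below the graph of `g`. -/
lemma chord_lt {M l : ℝ} {i a b : ℕ} (ha : 1 ≤ a) (hb : 1 ≤ b)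
    (hM : 2 * ((a : ℝ) + b) < M) (hl : lam M (i + (i + a + b)) ≤ l) :
    (b : ℝ) * g M l i + a * g M l (i + a + b) < ((a : ℝ) + b) * g M l (i + a) := by
  have hM1 : 1 ≤ M := by
    have : (1 : ℝ) ≤ a := by exact_mod_cast ha
    have : (1 : ℝ) ≤ b := by exact_mod_cast hb
    linarith
  have hM0 : 0 < M := by linarith
  have haR : (1 : ℝ) ≤ a := by exact_mod_cast ha
  have hbR : (1 : ℝ) ≤ b := by exact_mod_cast hb
  have k1 := key_pow (M := M) (a := a) (b := b) ha hM.le hM1
  -- U part
  set X := M ^ (2 * i) with hX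
  have hX0 : 0 < X := by positivity
  set A := M ^ (2 * a) with hA
  have hA1 : 1 ≤ A := one_le_pow₀ hM1
  set B := M ^ (2 * b) with hB
  have hB1 : 1 ≤ B := one_le_pow₀ hM1
  have hUi : U M i = X := rfl
  have hUx : U M (i + a) = X * A := by unfold U; rw [hX, hA, ← pow_add]; congr 1; ring
  have hUj : U M (i + a + b) = X * A * B := by
    unfold U; rw [hX, hA, hB, ← pow_add, ← pow_add]; congr 1; ring
  have hVi : V M i = X⁻¹ := rfl
  have hVx : V M (i + a) = (X * A)⁻¹ := by rw [← hUx]; rfl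
  have hVj : V M (i + a + b) = (X * A * B)⁻¹ := by rw [← hUj]; rfl
  have hAB : M ^ (2 * (a + b)) = A * B := by rw [hA, hB, ← pow_add]; congr 1; ring
  rw [hAB] at k1
  have hlam : lam M (i + (i + a + b)) = M * (X * X * A * B) := by
    unfold lam; rw [hX, hA, hB, ← pow_add, ← pow_add, ← pow_add, ← pow_succ']; congr 1; ring
  -- V part positivity
  have hVpart : (b : ℝ) * V M i + a * V M (i + a + b) - ((a : ℝ) + b) * V M (i + a) =
      ((b : ℝ) * (A * B) + a - ((a : ℝ) + b) * B) / (X * A * B) := by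
    rw [hVi, hVx, hVj]; field_simp
  have hXAB : 0 < X * A * B := by positivity
  have hnum : A * B / 2 ≤ (b : ℝ) * (A * B) + a - ((a : ℝ) + b) * B := by nlinarith
  have hVpos : 0 ≤ (b : ℝ) * V M i + a * V M (i + a + b) - ((a : ℝ) + b) * V M (i + a) := by
    rw [hVpart]; apply div_nonneg _ hXAB.le
    have : 0 ≤ A * B / 2 := by positivity
    linarith
  have hlV : M * X * (A * B / 2) ≤
      l * ((b : ℝ) * V M i + a * V M (i + a + b) - ((a : ℝ) + b) * V M (i + a)) := by
    calc M * X * (A * B / 2)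
        ≤ M * X * ((b : ℝ) * (A * B) + a - ((a : ℝ) + b) * B) := by gcongr
      _ = lam M (i + (i + a + b)) *
          ((b : ℝ) * V M i + a * V M (i + a + b) - ((a : ℝ) + b) * V M (i + a)) := by
            rw [hVpart, hlam]; field_simp
      _ ≤ _ := by gcongr
  have hU : (b : ℝ) * U M i + a * U M (i + a + b) - ((a : ℝ) + b) * U M (i + a)
      ≤ a * (X * A * B) := by
    rw [hUi, hUx, hUj]
    have : (b : ℝ) * X ≤ ((a : ℝ) + b) * (X * A) := by
      have h1 : (b : ℝ) * X ≤ ((a : ℝ) + b) * X := by nlinarith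
      have h2 : X ≤ X * A := by nlinarith
      nlinarith
    linarith
  have hfin : (a : ℝ) * (X * A * B) < M * X * (A * B / 2) := by
    have h1 : (a : ℝ) < M / 2 := by linarith
    nlinarith
  unfold g
  nlinarith

/-- Below the threshold the chord over `(i, i + a + b)` lies above the graph of `g`. -/
lemma chord_gt {M l : ℝ} {i a b : ℕ} (ha : 1 ≤ a) (hb : 1 ≤ b)
    (hM : 2 * ((a : ℝ) + b) < M) (hl : l * M ^ 2 ≤ lam M (i + (i + a + b))) :
    ((a : ℝ) + b) * g M l (i + a) < (b : ℝ) * g M l i + a * g M l (i + a + b) := by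
  have haR : (1 : ℝ) ≤ a := by exact_mod_cast ha
  have hbR : (1 : ℝ) ≤ b := by exact_mod_cast hb
  have hM1 : 1 ≤ M := by linarith
  have hM0 : 0 < M := by linarith
  have k1 := key_pow (M := M) (a := b) (b := a) hb (by linarith) hM1
  have k2 := key_pow (M := M) (a := a) (b := b) ha hM.le hM1
  set X := M ^ (2 * i) with hX
  have hX0 : 0 < X := by positivity
  set A := M ^ (2 * a) with hA
  have hA1 : 1 ≤ A := one_le_pow₀ hM1
  set B := M ^ (2 * b) with hB
  have hB1 : 1 ≤ B := one_le_pow₀ hM1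
  have hUi : U M i = X := rfl
  have hUx : U M (i + a) = X * A := by unfold U; rw [hX, hA, ← pow_add]; congr 1; ring
  have hUj : U M (i + a + b) = X * A * B := by
    unfold U; rw [hX, hA, hB, ← pow_add, ← pow_add]; congr 1; ring
  have hVi : V M i = X⁻¹ := rfl
  have hVx : V M (i + a) = (X * A)⁻¹ := by rw [← hUx]; rfl
  have hVj : V M (i + a + b) = (X * A * B)⁻¹ := by rw [← hUj]; rfl
  have hAB : M ^ (2 * (b + a)) = A * B := by rw [hA, hB, ← pow_add]; congr 1; ring
  have hAB' : M ^ (2 * (a + b)) = A * B := by rw [hA, hB, ← pow_add]; congr 1; ring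
  rw [hAB] at k1
  rw [hAB'] at k2
  have hlam : lam M (i + (i + a + b)) = M * (X * X * A * B) := by
    unfold lam; rw [hX, hA, hB, ← pow_add, ← pow_add, ← pow_add, ← pow_succ']; congr 1; ring
  have hVpart : (b : ℝ) * V M i + a * V M (i + a + b) - ((a : ℝ) + b) * V M (i + a) =
      ((b : ℝ) * (A * B) + a - ((a : ℝ) + b) * B) / (X * A * B) := by
    rw [hVi, hVx, hVj]; field_simp
  have hXAB : 0 < X * A * B := by positivity
  have hnum0 : 0 ≤ (b : ℝ) * (A * B) + a - ((a : ℝ) + b) * B := by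
    have : 0 < A * B := by positivity
    nlinarith
  have hnum : (b : ℝ) * (A * B) + a - ((a : ℝ) + b) * B ≤ b * (A * B) := by nlinarith
  have hl' : l ≤ X * X * A * B / M := by
    rw [le_div_iff₀ hM0]
    have : l * M * M ≤ (X * X * A * B) * M := by rw [hlam] at hl; nlinarith
    exact le_of_mul_le_mul_right this hM0
  have hlV : l * ((b : ℝ) * V M i + a * V M (i + a + b) - ((a : ℝ) + b) * V M (i + a)) ≤
      X * (b * (A * B)) / M := by
    calc l * ((b : ℝ) * V M i + a * V M (i + a + b) - ((a : ℝ) + b) * V M (i + a))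
        ≤ (X * X * A * B / M) *
          ((b : ℝ) * V M i + a * V M (i + a + b) - ((a : ℝ) + b) * V M (i + a)) := by
            apply mul_le_mul_of_nonneg_right hl'
            rw [hVpart]; exact div_nonneg hnum0 hXAB.le
      _ = X * ((b : ℝ) * (A * B) + a - ((a : ℝ) + b) * B) / M := by
            rw [hVpart]; field_simp
      _ ≤ _ := by gcongr
  have hU : X * (A * B / 2) ≤
      (b : ℝ) * U M i + a * U M (i + a + b) - ((a : ℝ) + b) * U M (i + a) := by
    rw [hUi, hUx, hUj]
    have h1 : ((a : ℝ) + b) * A ≤ A * B / 2 := by linarith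
    have h2 : X * (((a : ℝ) + b) * A) ≤ X * (A * B / 2) := by gcongr
    have h3 : X * A * B ≤ (a : ℝ) * (X * A * B) := by nlinarith
    have h4 : 0 ≤ (b : ℝ) * X := by positivity
    nlinarith
  have hfin : X * (b * (A * B)) / M < X * (A * B / 2) := by
    rw [div_lt_iff₀ hM0]
    have h1 : (b : ℝ) < M / 2 := by linarith
    have h2 : 0 < X * (A * B) := by positivity
    nlinarith
  unfold g
  nlinarith

/-! ### Chords -/

/-- The chord of `g` over `(i, j)`, evaluated at `x`. -/
noncomputable def ch (M l : ℝ) (i j : ℕ) (x : ℝ) : ℝ :=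
  (((j : ℝ) - x) * g M l i + (x - i) * g M l j) / ((j : ℝ) - i)

lemma ch_left {M l : ℝ} {i j : ℕ} (h : i < j) : ch M l i j i = g M l i := by
  have : (0 : ℝ) < (j : ℝ) - i := by
    have : (i : ℝ) < j := by exact_mod_cast h
    linarith
  unfold ch; field_simp; ring

lemma ch_right {M l : ℝ} {i j : ℕ} (h : i < j) : ch M l i j j = g M l j := by
  have : (0 : ℝ) < (j : ℝ) - i := by
    have : (i : ℝ) < j := by exact_mod_cast h
    linarith
  unfold ch; field_simp; ring

lemma ch_lt {M l : ℝ} {i x j : ℕ} (h1 : i < x) (h2 : x < j) (hM : 2 * (j : ℝ) < M)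
    (hl : lam M (i + j) ≤ l) : ch M l i j x < g M l x := by
  obtain ⟨a, rfl⟩ := Nat.exists_eq_add_of_lt h1
  obtain ⟨b, rfl⟩ := Nat.exists_eq_add_of_lt h2
  have h3 := chord_lt (M := M) (l := l) (i := i) (a := a + 1) (b := b + 1) (by omega) (by omega)
    (by push_cast at hM ⊢; have := (Nat.cast_nonneg (α := ℝ) i); linarith)
    (by convert hl using 2; omega)
  have h4 : (0 : ℝ) < ((i + a + 1 + b + 1 : ℕ) : ℝ) - i := by
    have ha0 := Nat.cast_nonneg (α := ℝ) a
    have hb0 := Nat.cast_nonneg (α := ℝ) b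
    push_cast; linarith
  unfold ch
  rw [div_lt_iff₀ h4]
  have e1 : i + (a + 1) = i + a + 1 := by ring
  have e2 : i + (a + 1) + (b + 1) = i + a + 1 + b + 1 := by ring
  rw [e2, e1] at h3
  push_cast at h3 ⊢
  linarith

lemma ch_gt {M l : ℝ} {i x j : ℕ} (h1 : i < x) (h2 : x < j) (hM : 2 * (j : ℝ) < M)
    (hl : l * M ^ 2 ≤ lam M (i + j)) : g M l x < ch M l i j x := by
  obtain ⟨a, rfl⟩ := Nat.exists_eq_add_of_lt h1
  obtain ⟨b, rfl⟩ := Nat.exists_eq_add_of_lt h2
  have h3 := chord_gt (M := M) (l := l) (i := i) (a := a + 1) (b := b + 1) (by omega) (by omega)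
    (by push_cast at hM ⊢; have := (Nat.cast_nonneg (α := ℝ) i); linarith)
    (by convert hl using 2; omega)
  have h4 : (0 : ℝ) < ((i + a + 1 + b + 1 : ℕ) : ℝ) - i := by
    have ha0 := Nat.cast_nonneg (α := ℝ) a
    have hb0 := Nat.cast_nonneg (α := ℝ) b
    push_cast; linarith
  unfold ch
  rw [lt_div_iff₀ h4]
  have e1 : i + (a + 1) = i + a + 1 := by ring
  have e2 : i + (a + 1) + (b + 1) = i + a + 1 + b + 1 := by ring
  rw [e2, e1] at h3
  push_cast at h3 ⊢
  linarith

/-- A measure on the two points `i, j` integrates `g` like any other measure with the same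
mass and mean integrates the chord. -/
lemma ch_int {M l : ℝ} {i j : ℕ} (hij : i < j) {α β α' β' x y : ℝ} (e0 : α + β = α' + β')
    (e1 : α * i + β * j = α' * x + β' * y) :
    α * g M l i + β * g M l j = α' * ch M l i j x + β' * ch M l i j y := by
  have h : (0 : ℝ) < (j : ℝ) - i := by
    have : (i : ℝ) < j := by exact_mod_cast hij
    linarith
  unfold ch
  field_simp
  have hα : α * ((j : ℝ) - i) = (α' + β') * j - (α' * x + β' * y) := by
    rw [← e0, ← e1]; ring
  have hβ : β * ((j : ℝ) - i) = (α' * x + β' * y) - (α' + β') * i := by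
    rw [← e0, ← e1]; ring
  have : (α * g M l i + β * g M l j) * ((j : ℝ) - i) =
      (α * ((j : ℝ) - i)) * g M l i + (β * ((j : ℝ) - i)) * g M l j := by ring
  rw [this, hα, hβ]; ring

lemma lam_strictMono {M : ℝ} (hM : 1 < M) : StrictMono (lam M) := by
  intro a b hab
  unfold lam
  exact pow_lt_pow_right₀ hM (by omega)

/-- Comparison of two chords with different sums. -/
lemma compare {M : ℝ} {i j k q : ℕ} (hij : i < j) (hkq : k < q) (hj : 2 * (j : ℝ) < M)
    (hq : 2 * (q : ℝ) < M) (hs : i + j < k + q) {α β α' β' : ℝ}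
    (hα : 0 ≤ α) (hβ : 0 ≤ β) (hα' : 0 ≤ α') (hβ' : 0 ≤ β') (hw : 0 < α + β)
    (e0 : α + β = α' + β') (e1 : α * i + β * j = α' * k + β' * q)
    (hle : α' * g M (lam M (i + j)) k + β' * g M (lam M (i + j)) q ≤
      α * g M (lam M (i + j)) i + β * g M (lam M (i + j)) j) :
    (i = k ∧ β = 0 ∧ β' = 0) ∨ (j = q ∧ α = 0 ∧ α' = 0) ∨
      (i = q ∧ β = 0 ∧ α' = 0) ∨ (j = k ∧ α = 0 ∧ β' = 0) := by
  set l := lam M (i + j) with hl
  have hM1 : 1 < M := by
    have : (1 : ℝ) ≤ j := by exact_mod_cast (by omega : 1 ≤ j)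
    linarith
  have hl2 : l * M ^ 2 ≤ lam M (k + q) := by
    have h1 : l * M ^ 2 = lam M (i + j + 1) := by
      rw [hl]; unfold lam; rw [← pow_add]; congr 1
    rw [h1]; exact (lam_strictMono hM1).monotone (by omega)
  have hiR : (i : ℝ) < j := by exact_mod_cast hij
  have hkR : (k : ℝ) < q := by exact_mod_cast hkq
  -- mean between the end points
  have m1 : (α + β) * i ≤ α * i + β * j := by nlinarith
  have m2 : α * i + β * j ≤ (α + β) * j := by nlinarith
  have m3 : (α + β) * k ≤ α * i + β * j := by rw [e0, e1]; nlinarith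
  have m4 : α * i + β * j ≤ (α + β) * q := by rw [e0, e1]; nlinarith
  have hiq : (i : ℝ) ≤ q := le_of_mul_le_mul_left (m1.trans m4) hw
  have hkj : (k : ℝ) ≤ j := le_of_mul_le_mul_left (m3.trans m2) hw
  have hiq' : i ≤ q := by exact_mod_cast hiq
  have hkj' : k ≤ j := by exact_mod_cast hkj
  rcases Nat.eq_or_lt_of_le hiq' with hiq | hiq
  · -- i = q
    right; right; left
    subst hiq
    refine ⟨rfl, ?_, ?_⟩
    · have : β * ((j : ℝ) - i) = 0 := by nlinarith
      rcases mul_eq_zero.1 this with h | h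
      · exact h
      · linarith
    · have : α' * ((i : ℝ) - k) = 0 := by nlinarith
      rcases mul_eq_zero.1 this with h | h
      · exact h
      · linarith
  rcases Nat.eq_or_lt_of_le hkj' with hkj | hkj
  · right; right; right
    subst hkj
    refine ⟨rfl, ?_, ?_⟩
    · have : α * ((k : ℝ) - i) = 0 := by nlinarith
      rcases mul_eq_zero.1 this with h | h
      · exact h
      · linarith
    · have : β' * ((q : ℝ) - k) = 0 := by nlinarith
      rcases mul_eq_zero.1 this with h | h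
      · exact h
      · linarith
  -- proper overlap
  set lo := max i k with hlo
  set hi := min j q with hhi
  have hlohi : lo < hi := by
    rw [hlo, hhi]; omega
  have hlohiR : (0 : ℝ) < (hi : ℝ) - lo := by
    have : (lo : ℝ) < hi := by exact_mod_cast hlohi
    linarith
  have hcle : ∀ x : ℕ, i ≤ x → x ≤ j → ch M l i j x ≤ g M l x := by
    intro x h1 h2
    rcases Nat.eq_or_lt_of_le h1 with h1 | h1
    · rw [← h1, ch_left hij]
    rcases Nat.eq_or_lt_of_le h2 with h2 | h2
    · rw [h2, ch_right hij]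
    exact (ch_lt h1 h2 hj le_rfl).le
  have hcge : ∀ x : ℕ, k ≤ x → x ≤ q → g M l x ≤ ch M l k q x := by
    intro x h1 h2
    rcases Nat.eq_or_lt_of_le h1 with h1 | h1
    · rw [← h1, ch_left hkq]
    rcases Nat.eq_or_lt_of_le h2 with h2 | h2
    · rw [h2, ch_right hkq]
    exact (ch_gt h1 h2 hq hl2).le
  have d1 : ch M l i j lo ≤ ch M l k q lo :=
    (hcle lo (by omega) (by omega)).trans (hcge lo (by omega) (by omega))
  have d2 : ch M l i j hi ≤ ch M l k q hi :=
    (hcle hi (by omega) (by omega)).trans (hcge hi (by omega) (by omega))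
  have d1s : i ≠ k → ch M l i j lo < ch M l k q lo := by
    intro hne
    rcases Nat.lt_or_gt_of_ne hne with h | h
    · have : lo = k := by omega
      rw [this]
      exact lt_of_lt_of_le (ch_lt h (by omega) hj le_rfl) (hcge k le_rfl (by omega))
    · have : lo = i := by omega
      rw [this]
      exact lt_of_le_of_lt (hcle i le_rfl (by omega)) (ch_gt h (by omega) hq hl2)
  have d2s : j ≠ q → ch M l i j hi < ch M l k q hi := by
    intro hne
    rcases Nat.lt_or_gt_of_ne hne with h | h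
    · have : hi = j := by omega
      rw [this]
      exact lt_of_le_of_lt (hcle j (by omega) le_rfl) (ch_gt (by omega) h hq hl2)
    · have : hi = q := by omega
      rw [this]
      exact lt_of_lt_of_le (ch_lt (by omega) h hj le_rfl) (hcge q (by omega) le_rfl)
  -- decomposition of the mean
  set m := α * (i : ℝ) + β * j with hm
  set w := α + β with hwdef
  set t1 := (w * hi - m) / ((hi : ℝ) - lo) with ht1
  set t2 := (m - w * lo) / ((hi : ℝ) - lo) with ht2
  have hloR : (lo : ℝ) = max (i : ℝ) k := by rw [hlo]; push_cast; rfl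
  have hhiR : (hi : ℝ) = min (j : ℝ) q := by rw [hhi]; push_cast; rfl
  have ht1n : 0 ≤ w * hi - m := by
    rw [hhiR]
    rcases min_choice (j : ℝ) q with h | h <;> rw [h] <;> linarith
  have ht2n : 0 ≤ m - w * lo := by
    rw [hloR]
    rcases max_choice (i : ℝ) k with h | h <;> rw [h] <;> linarith
  have ht1' : 0 ≤ t1 := div_nonneg ht1n hlohiR.le
  have ht2' : 0 ≤ t2 := div_nonneg ht2n hlohiR.le
  have f0 : α + β = t1 + t2 := by
    rw [ht1, ht2]; field_simp; ring
  have f1 : α * i + β * j = t1 * (lo : ℝ) + t2 * (hi : ℝ) := by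
    rw [ht1, ht2]; field_simp; ring
  have f0' : α' + β' = t1 + t2 := by rw [← e0, ← f0]
  have f1' : α' * k + β' * q = t1 * (lo : ℝ) + t2 * (hi : ℝ) := by rw [← e1, hm, f1]
  rw [ch_int hij f0 f1, ch_int hkq f0' f1'] at hle
  -- conclude
  have hz1 : i ≠ k → t1 = 0 := by
    intro hne
    have := d1s hne
    by_contra h
    have h' : 0 < t1 := lt_of_le_of_ne ht1' (Ne.symm h)
    nlinarith [mul_le_mul_of_nonneg_left d2 ht2', mul_lt_mul_of_pos_left this h']
  have hz2 : j ≠ q → t2 = 0 := by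
    intro hne
    have := d2s hne
    by_contra h
    have h' : 0 < t2 := lt_of_le_of_ne ht2' (Ne.symm h)
    nlinarith [mul_le_mul_of_nonneg_left d1 ht1', mul_lt_mul_of_pos_left this h']
  by_cases hik : i = k
  · -- then j ≠ q
    have hjq : j ≠ q := by omega
    have := hz2 hjq
    left
    have hlo' : lo = i := by omega
    have hmi : m - w * i = 0 := by
      rw [ht2, div_eq_zero_iff] at this
      rcases this with h | h
      · rw [hlo'] at h; exact h
      · linarith
    refine ⟨hik, ?_, ?_⟩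
    · have : β * ((j : ℝ) - i) = 0 := by rw [hm, hwdef] at hmi; nlinarith
      rcases mul_eq_zero.1 this with h | h
      · exact h
      · linarith
    · have : β' * ((q : ℝ) - k) = 0 := by
        have hik' : (i : ℝ) = k := by exact_mod_cast hik
        rw [hik'] at hmi
        rw [e1, e0] at hmi; nlinarith
      rcases mul_eq_zero.1 this with h | h
      · exact h
      · linarith
  · have ht10 := hz1 hik
    have hjq : j = q := by
      by_contra h
      have := hz2 h
      rw [ht10, this] at f0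
      linarith
    right; left
    have hhi' : hi = j := by omega
    have hmi : w * j - m = 0 := by
      rw [ht1, div_eq_zero_iff] at ht10
      rcases ht10 with h | h
      · rw [hhi'] at h; exact h
      · linarith
    refine ⟨hjq, ?_, ?_⟩
    · have : α * ((j : ℝ) - i) = 0 := by rw [hm, hwdef] at hmi; nlinarith
      rcases mul_eq_zero.1 this with h | h
      · exact h
      · linarith
    · have : α' * ((q : ℝ) - k) = 0 := by
        have hjq' : (j : ℝ) = q := by exact_mod_cast hjq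
        rw [hjq'] at hmi
        rw [e1, e0] at hmi; nlinarith
      rcases mul_eq_zero.1 this with h | h
      · exact h
      · linarith

/-- Comparison of two different chords with the same sum. -/
lemma compare_eq {M : ℝ} {i j k q : ℕ} (hij : i < j) (hkq : k < q) (hj : 2 * (j : ℝ) < M)
    (hs : i + j = k + q) (hik : i < k) {α β α' β' : ℝ}
    (hα' : 0 ≤ α') (hβ' : 0 ≤ β') (hw : 0 < α + β)
    (e0 : α + β = α' + β') (e1 : α * i + β * j = α' * k + β' * q) :
    α * g M (lam M (i + j)) i + β * g M (lam M (i + j)) j <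
      α' * g M (lam M (i + j)) k + β' * g M (lam M (i + j)) q := by
  rw [ch_int hij e0 e1]
  have h1 : ch M (lam M (i + j)) i j k < g M (lam M (i + j)) k :=
    ch_lt hik (by omega) hj le_rfl
  have h2 : ch M (lam M (i + j)) i j q < g M (lam M (i + j)) q :=
    ch_lt (by omega) (by omega) hj le_rfl
  rcases hα'.lt_or_eq with h | h
  · nlinarith [mul_lt_mul_of_pos_left h1 h, mul_le_mul_of_nonneg_left h2.le hβ']
  · have : 0 < β' := by rw [e0, ← h] at hw; linarith
    nlinarith [mul_lt_mul_of_pos_left h2 this, mul_le_mul_of_nonneg_left h1.le hα']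

/-! ### The points and the triangles -/

/-- The points near the first line. -/
noncomputable def Pt (M : ℝ) (i : ℕ) : E3 :=
  !₂[(i : ℝ) / (1 + V M i), U M i / (1 + V M i), 1 / (1 + V M i)]

/-- The points on the second line. -/
noncomputable def Zt (M : ℝ) (L : ℕ) : E3 := !₂[0, lam M L, 0]

lemma V_pos {M : ℝ} (hM : 0 < M) (i : ℕ) : 0 < V M i := by unfold V; positivity

lemma Pt_0 (M : ℝ) (i : ℕ) : Pt M i 0 = (i : ℝ) / (1 + V M i) := by simp [Pt]
lemma Pt_1 (M : ℝ) (i : ℕ) : Pt M i 1 = U M i / (1 + V M i) := by simp [Pt]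
lemma Pt_2 (M : ℝ) (i : ℕ) : Pt M i 2 = 1 / (1 + V M i) := by simp [Pt]
lemma Zt_0 (M : ℝ) (L : ℕ) : Zt M L 0 = 0 := by simp [Zt]
lemma Zt_1 (M : ℝ) (L : ℕ) : Zt M L 1 = lam M L := by simp [Zt]
lemma Zt_2 (M : ℝ) (L : ℕ) : Zt M L 2 = 0 := by simp [Zt]

open Classical in
/-- The vertex set of the triangle of the chord `(i, j)`. -/
noncomputable def vs (M : ℝ) (i j : ℕ) : Finset E3 := {Pt M i, Pt M j, Zt M (i + j)}

lemma mem_triple {a b c x : E3} (h : x ∈ convexHull ℝ ({a, b, c} : Set E3)) :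
    ∃ r s t : ℝ, 0 ≤ r ∧ 0 ≤ s ∧ 0 ≤ t ∧ r + s + t = 1 ∧ x = r • a + s • b + t • c := by
  rw [convexHull_insert (by simp), convexHull_pair, mem_convexJoin] at h
  obtain ⟨a', ha', y, hy, hx⟩ := h
  rw [Set.mem_singleton_iff] at ha'
  subst ha'
  obtain ⟨u1, u2, hu1, hu2, hu, rfl⟩ := hy
  obtain ⟨t1, t2, ht1, ht2, ht, rfl⟩ := hx
  refine ⟨t1, t2 * u1, t2 * u2, ht1, mul_nonneg ht2 hu1, mul_nonneg ht2 hu2, ?_, ?_⟩
  · rw [add_assoc, ← mul_add, hu, mul_one, ht]
  · rw [smul_add, smul_smul, smul_smul, add_assoc]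

/-- Coordinates of a point of a triangle. -/
lemma tri_coords {M : ℝ} (hM : 0 < M) {i j : ℕ} {x : E3} (h : x ∈ tri (vs M i j)) :
    ∃ α β γ : ℝ, 0 ≤ α ∧ 0 ≤ β ∧ 0 ≤ γ ∧
      x 0 = α * i + β * j ∧ x 1 = α * U M i + β * U M j + γ * lam M (i + j) ∧
      x 2 = α + β ∧ 1 - x 2 = α * V M i + β * V M j + γ ∧
      x = (α * (1 + V M i)) • Pt M i + (β * (1 + V M j)) • Pt M j + γ • Zt M (i + j) := by
  unfold tri vs at h
  rw [Finset.coe_insert, Finset.coe_insert, Finset.coe_singleton] at h
  obtain ⟨r, s, t, hr, hs, ht, hsum, hx⟩ := mem_triple h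
  have hi : 0 < 1 + V M i := by have := V_pos hM i; linarith
  have hj : 0 < 1 + V M j := by have := V_pos hM j; linarith
  refine ⟨r / (1 + V M i), s / (1 + V M j), t, by positivity, by positivity, ht, ?_, ?_, ?_, ?_, ?_⟩
  · rw [hx]; simp only [PiLp.add_apply, PiLp.smul_apply, smul_eq_mul, Pt_0, Zt_0]; ring
  · rw [hx]; simp only [PiLp.add_apply, PiLp.smul_apply, smul_eq_mul, Pt_1, Zt_1]; ring
  · rw [hx]; simp only [PiLp.add_apply, PiLp.smul_apply, smul_eq_mul, Pt_2, Zt_2]; ring
  · have : x 2 = r / (1 + V M i) + s / (1 + V M j) := by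
      rw [hx]; simp only [PiLp.add_apply, PiLp.smul_apply, smul_eq_mul, Pt_2, Zt_2]; ring
    have k1 : r = r / (1 + V M i) + r / (1 + V M i) * V M i := by field_simp
    have k2 : s = s / (1 + V M j) + s / (1 + V M j) * V M j := by field_simp
    rw [this]; linarith
  · rw [div_mul_cancel₀ _ hi.ne', div_mul_cancel₀ _ hj.ne']; exact hx

lemma mem_vs (M : ℝ) (i j : ℕ) (x : E3) :
    x ∈ vs M i j ↔ x = Pt M i ∨ x = Pt M j ∨ x = Zt M (i + j) := by
  unfold vs; simp

lemma fst_of {M : ℝ} {i j : ℕ} {x : E3} {α β γ : ℝ}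
    (hx : x = (α * (1 + V M i)) • Pt M i + (β * (1 + V M j)) • Pt M j + γ • Zt M (i + j))
    (h3 : 1 - x 2 = α * V M i + β * V M j + γ) (h2 : x 2 = α + β)
    (hβ : β = 0) (hγ : γ = 0) : x = Pt M i := by
  subst hβ hγ
  have h : α * (1 + V M i) = 1 := by
    have : 1 - (α + 0) = α * V M i + 0 * V M j + 0 := by rw [← h2]; exact h3
    linarith
  rw [hx, h]; simp

lemma snd_of {M : ℝ} {i j : ℕ} {x : E3} {α β γ : ℝ}
    (hx : x = (α * (1 + V M i)) • Pt M i + (β * (1 + V M j)) • Pt M j + γ • Zt M (i + j))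
    (h3 : 1 - x 2 = α * V M i + β * V M j + γ) (h2 : x 2 = α + β)
    (hα : α = 0) (hγ : γ = 0) : x = Pt M j := by
  subst hα hγ
  have h : β * (1 + V M j) = 1 := by
    have : 1 - (0 + β) = 0 * V M i + β * V M j + 0 := by rw [← h2]; exact h3
    linarith
  rw [hx, h]; simp

lemma trd_of {M : ℝ} {i j : ℕ} {x : E3} {α β γ : ℝ}
    (hx : x = (α * (1 + V M i)) • Pt M i + (β * (1 + V M j)) • Pt M j + γ • Zt M (i + j))
    (h3 : 1 - x 2 = α * V M i + β * V M j + γ) (h2 : x 2 = α + β)
    (hα : α = 0) (hβ : β = 0) : x = Zt M (i + j) := by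
  subst hα hβ
  have h : γ = 1 := by
    have : 1 - (0 + 0 : ℝ) = 0 * V M i + 0 * V M j + γ := by rw [← h2]; exact h3
    linarith
  rw [hx, h]; simp

/-- The common points of two different triangles are common vertices: case of different sums. -/
lemma inter_of_lt {M : ℝ} {i j k q : ℕ} (hij : i < j) (hkq : k < q) (hj : 2 * (j : ℝ) < M)
    (hq : 2 * (q : ℝ) < M) (hs : i + j < k + q) {x : E3}
    (h1 : x ∈ tri (vs M i j)) (h2 : x ∈ tri (vs M k q)) : x ∈ vs M i j ∧ x ∈ vs M k q := by
  have hM1 : 1 < M := by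
    have : (1 : ℝ) ≤ j := by exact_mod_cast (by omega : 1 ≤ j)
    linarith
  obtain ⟨α, β, γ, hα, hβ, hγ, a0, a1, a2, a3, hx⟩ := tri_coords (by linarith) h1
  obtain ⟨α', β', γ', hα', hβ', hγ', b0, b1, b2, b3, hx'⟩ := tri_coords (by linarith) h2
  have hll : lam M (i + j) < lam M (k + q) := lam_strictMono hM1 hs
  have e0 : α + β = α' + β' := by rw [← a2, ← b2]
  have e1 : α * i + β * j = α' * k + β' * q := by rw [← a0, ← b0]
  -- the difference of the two chords
  have hG : (α' * g M (lam M (i + j)) k + β' * g M (lam M (i + j)) q) -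
      (α * g M (lam M (i + j)) i + β * g M (lam M (i + j)) j) =
      γ' * (lam M (i + j) - lam M (k + q)) := by
    unfold g
    have c1 : α * U M i + β * U M j + γ * lam M (i + j) =
      α' * U M k + β' * U M q + γ' * lam M (k + q) := by rw [← a1, ← b1]
    have c2 : α * V M i + β * V M j + γ = α' * V M k + β' * V M q + γ' := by rw [← a3, ← b3]
    have c2' : lam M (i + j) * (α * V M i + β * V M j + γ) =
      lam M (i + j) * (α' * V M k + β' * V M q + γ') := by rw [c2]
    linarith
  have hle : α' * g M (lam M (i + j)) k + β' * g M (lam M (i + j)) q ≤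
      α * g M (lam M (i + j)) i + β * g M (lam M (i + j)) j := by
    have : γ' * (lam M (i + j) - lam M (k + q)) ≤ 0 :=
      mul_nonpos_of_nonneg_of_nonpos hγ' (by linarith)
    linarith
  rcases (add_nonneg hα hβ).lt_or_eq with hw | hw
  · have hc := compare hij hkq hj hq hs hα hβ hα' hβ' hw e0 e1 hle
    -- in every case both chords pass through the same point
    have hGz : ∀ p : ℕ, (α * g M (lam M (i + j)) i + β * g M (lam M (i + j)) j =
        (α + β) * g M (lam M (i + j)) p) →
        (α' * g M (lam M (i + j)) k + β' * g M (lam M (i + j)) q =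
        (α + β) * g M (lam M (i + j)) p) → γ' = 0 := by
      intro p hp1 hp2
      rw [hp1, hp2, sub_self] at hG
      rcases mul_eq_zero.1 hG.symm with h | h
      · exact h
      · linarith
    have hγ0 : γ' = 0 → (α * V M i + β * V M j = α' * V M k + β' * V M q) → γ = 0 := by
      intro h h'
      have c2 : α * V M i + β * V M j + γ = α' * V M k + β' * V M q + γ' := by rw [← a3, ← b3]
      linarith
    rcases hc with ⟨hik, hb, hb'⟩ | ⟨hjq, hb, hb'⟩ | ⟨hiq, hb, hb'⟩ | ⟨hjk, hb, hb'⟩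
    · have hγ'0 : γ' = 0 := hGz i (by rw [hb]; ring) (by
        rw [← hik, hb', hb]; rw [hb, hb'] at e0; linear_combination (-g M (lam M (i + j)) i) * e0)
      have hγ00 : γ = 0 := hγ0 hγ'0 (by
        rw [← hik, hb, hb']; rw [hb, hb'] at e0; linear_combination (V M i) * e0)
      have x1 := fst_of hx a3 a2 hb hγ00
      have x2 := fst_of hx' b3 b2 hb' hγ'0
      exact ⟨(mem_vs _ _ _ _).2 (Or.inl x1), (mem_vs _ _ _ _).2 (Or.inl x2)⟩
    · have hγ'0 : γ' = 0 := hGz j (by rw [hb]; ring) (by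
        rw [← hjq, hb', hb]; rw [hb, hb'] at e0; linear_combination (-g M (lam M (i + j)) j) * e0)
      have hγ00 : γ = 0 := hγ0 hγ'0 (by
        rw [← hjq, hb, hb']; rw [hb, hb'] at e0; linear_combination (V M j) * e0)
      have x1 := snd_of hx a3 a2 hb hγ00
      have x2 := snd_of hx' b3 b2 hb' hγ'0
      exact ⟨(mem_vs _ _ _ _).2 (Or.inr (Or.inl x1)), (mem_vs _ _ _ _).2 (Or.inr (Or.inl x2))⟩
    · have hγ'0 : γ' = 0 := hGz i (by rw [hb]; ring) (by
        rw [← hiq, hb', hb]; rw [hb, hb'] at e0; linear_combination (-g M (lam M (i + j)) i) * e0)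
      have hγ00 : γ = 0 := hγ0 hγ'0 (by
        rw [← hiq, hb, hb']; rw [hb, hb'] at e0; linear_combination (V M i) * e0)
      have x1 := fst_of hx a3 a2 hb hγ00
      have x2 := snd_of hx' b3 b2 hb' hγ'0
      exact ⟨(mem_vs _ _ _ _).2 (Or.inl x1), (mem_vs _ _ _ _).2 (Or.inr (Or.inl x2))⟩
    · have hγ'0 : γ' = 0 := hGz j (by rw [hb]; ring) (by
        rw [← hjk, hb', hb]; rw [hb, hb'] at e0; linear_combination (-g M (lam M (i + j)) j) * e0)
      have hγ00 : γ = 0 := hγ0 hγ'0 (by
        rw [← hjk, hb, hb']; rw [hb, hb'] at e0; linear_combination (V M j) * e0)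
      have x1 := snd_of hx a3 a2 hb hγ00
      have x2 := fst_of hx' b3 b2 hb' hγ'0
      exact ⟨(mem_vs _ _ _ _).2 (Or.inr (Or.inl x1)), (mem_vs _ _ _ _).2 (Or.inl x2)⟩
  · exfalso
    have z1 : α = 0 := by linarith
    have z2 : β = 0 := by linarith
    have z3 : α' = 0 := by linarith
    have z4 : β' = 0 := by linarith
    rw [z1, z2, a2, z1, z2] at a3
    rw [z3, z4, b2, z3, z4] at b3
    have g1 : γ = 1 := by linarith
    have g2 : γ' = 1 := by linarith
    rw [z1, z2, g1] at a1
    rw [z3, z4, g2, a1] at b1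
    linarith

/-- The common points of two different triangles are common vertices: case of equal sums. -/
lemma inter_of_eq {M : ℝ} {i j k q : ℕ} (hij : i < j) (hkq : k < q) (hj : 2 * (j : ℝ) < M)
    (hs : i + j = k + q) (hik : i < k) {x : E3}
    (h1 : x ∈ tri (vs M i j)) (h2 : x ∈ tri (vs M k q)) : x ∈ vs M i j ∧ x ∈ vs M k q := by
  have hM1 : 1 < M := by
    have : (1 : ℝ) ≤ j := by exact_mod_cast (by omega : 1 ≤ j)
    linarith
  obtain ⟨α, β, γ, hα, hβ, hγ, a0, a1, a2, a3, hx⟩ := tri_coords (by linarith) h1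
  obtain ⟨α', β', γ', hα', hβ', hγ', b0, b1, b2, b3, hx'⟩ := tri_coords (by linarith) h2
  have e0 : α + β = α' + β' := by rw [← a2, ← b2]
  have e1 : α * i + β * j = α' * k + β' * q := by rw [← a0, ← b0]
  have hG : (α' * g M (lam M (i + j)) k + β' * g M (lam M (i + j)) q) -
      (α * g M (lam M (i + j)) i + β * g M (lam M (i + j)) j) = 0 := by
    unfold g
    have c1 : α * U M i + β * U M j + γ * lam M (i + j) =
      α' * U M k + β' * U M q + γ' * lam M (i + j) := by rw [← a1, b1, hs]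
    have c2 : α * V M i + β * V M j + γ = α' * V M k + β' * V M q + γ' := by rw [← a3, ← b3]
    have c2' : lam M (i + j) * (α * V M i + β * V M j + γ) =
      lam M (i + j) * (α' * V M k + β' * V M q + γ') := by rw [c2]
    linarith
  rcases (add_nonneg hα hβ).lt_or_eq with hw | hw
  · have := compare_eq hij hkq hj hs hik hα' hβ' hw e0 e1
    exfalso; linarith
  · have z1 : α = 0 := by linarith
    have z2 : β = 0 := by linarith
    have z3 : α' = 0 := by linarith
    have z4 : β' = 0 := by linarith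
    exact ⟨(mem_vs _ _ _ _).2 (Or.inr (Or.inr (trd_of hx a3 a2 z1 z2))),
      (mem_vs _ _ _ _).2 (Or.inr (Or.inr (trd_of hx' b3 b2 z3 z4)))⟩

lemma inter {M : ℝ} {i j k q : ℕ} (hij : i < j) (hkq : k < q) (hj : 2 * (j : ℝ) < M)
    (hq : 2 * (q : ℝ) < M) (hne : (i, j) ≠ (k, q)) {x : E3}
    (h1 : x ∈ tri (vs M i j)) (h2 : x ∈ tri (vs M k q)) : x ∈ vs M i j ∧ x ∈ vs M k q := by
  rcases lt_trichotomy (i + j) (k + q) with hs | hs | hs
  · exact inter_of_lt hij hkq hj hq hs h1 h2
  · rcases lt_trichotomy i k with h | h | h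
    · exact inter_of_eq hij hkq hj hs h h1 h2
    · exact absurd (by rw [h, show j = q by omega]) hne
    · exact (inter_of_eq hkq hij hq hs.symm h h2 h1).symm
  · exact (inter_of_lt hkq hij hq hj hs h2 h1).symm

lemma Pt_inj {M : ℝ} (hM : 1 < M) {i j : ℕ} (h : Pt M i = Pt M j) : i = j := by
  have h2 : Pt M i 2 = Pt M j 2 := by rw [h]
  rw [Pt_2, Pt_2] at h2
  have hi := V_pos (by linarith : 0 < M) i
  have hj := V_pos (by linarith : 0 < M) j
  rw [div_eq_div_iff (by positivity) (by positivity)] at h2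
  have h3 : V M i = V M j := by linarith
  unfold V at h3
  have h4 : M ^ (2 * i) = M ^ (2 * j) := inv_injective h3
  have := pow_right_injective₀ (by linarith) hM.ne' h4
  omega

lemma Pt_ne_Zt {M : ℝ} (hM : 0 < M) (i L : ℕ) : Pt M i ≠ Zt M L := by
  intro h
  have h2 : Pt M i 2 = Zt M L 2 := by rw [h]
  rw [Pt_2, Zt_2] at h2
  have := V_pos hM i
  have : (0 : ℝ) < 1 / (1 + V M i) := by positivity
  linarith

lemma not_collinear {M : ℝ} (hM : 0 < M) {i j L : ℕ} (hij : i ≠ j) :
    ¬ Collinear ℝ ({Pt M i, Pt M j, Zt M L} : Set E3) := by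
  intro h
  rw [collinear_iff_of_mem (p₀ := Zt M L) (by simp)] at h
  obtain ⟨v, hv⟩ := h
  obtain ⟨r, hr⟩ := hv (Pt M i) (by simp)
  obtain ⟨r', hr'⟩ := hv (Pt M j) (by simp)
  have hi := V_pos hM i
  have hj := V_pos hM j
  have c0 : (i : ℝ) / (1 + V M i) = r * v 0 := by
    rw [← Pt_0, hr]; simp [Zt_0]
  have c2 : 1 / (1 + V M i) = r * v 2 := by
    rw [← Pt_2, hr]; simp [Zt_2]
  have d0 : (j : ℝ) / (1 + V M j) = r' * v 0 := by
    rw [← Pt_0, hr']; simp [Zt_0]
  have d2 : 1 / (1 + V M j) = r' * v 2 := by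
    rw [← Pt_2, hr']; simp [Zt_2]
  have hr0 : r ≠ 0 := by
    rintro rfl
    have : (0 : ℝ) < 1 / (1 + V M i) := by positivity
    rw [zero_mul] at c2; linarith
  have hr0' : r' ≠ 0 := by
    rintro rfl
    have : (0 : ℝ) < 1 / (1 + V M j) := by positivity
    rw [zero_mul] at d2; linarith
  have e1 : (i : ℝ) * (r * v 2) = r * v 0 := by rw [← c0, ← c2]; ring
  have e2 : (j : ℝ) * (r' * v 2) = r' * v 0 := by rw [← d0, ← d2]; ring
  have f1 : (i : ℝ) * v 2 = v 0 := by
    apply mul_left_cancel₀ hr0; linarith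
  have f2 : (j : ℝ) * v 2 = v 0 := by
    apply mul_left_cancel₀ hr0'; linarith
  have hv2 : v 2 ≠ 0 := by
    intro h0
    have : (0 : ℝ) < 1 / (1 + V M i) := by positivity
    rw [h0, mul_zero] at c2; linarith
  have : (i : ℝ) = j := by
    apply mul_right_cancel₀ hv2; rw [f1, f2]
  exact hij (by exact_mod_cast this)

lemma vs_card {M : ℝ} (hM : 1 < M) {i j : ℕ} (hij : i ≠ j) : (vs M i j).card = 3 := by
  classical
  unfold vs
  rw [Finset.card_eq_three]
  refine ⟨Pt M i, Pt M j, Zt M (i + j), fun h => hij (Pt_inj hM h), Pt_ne_Zt (by linarith) _ _,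
    Pt_ne_Zt (by linarith) _ _, ?_⟩
  ext; simp

lemma vs_inj {M : ℝ} (hM : 1 < M) {i j k q : ℕ} (hij : i < j) (hkq : k < q)
    (h : vs M i j = vs M k q) : (i, j) = (k, q) := by
  have h0 : 0 < M := by linarith
  have hi : Pt M i ∈ vs M k q := by rw [← h]; exact (mem_vs _ _ _ _).2 (Or.inl rfl)
  have hj : Pt M j ∈ vs M k q := by rw [← h]; exact (mem_vs _ _ _ _).2 (Or.inr (Or.inl rfl))
  rw [mem_vs] at hi hj
  rcases hi with hi | hi | hi
  · rcases hj with hj | hj | hj
    · have := Pt_inj hM hi; have := Pt_inj hM hj; omega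
    · rw [Pt_inj hM hi, Pt_inj hM hj]
    · exact absurd hj (Pt_ne_Zt h0 _ _)
  · rcases hj with hj | hj | hj
    · have := Pt_inj hM hi; have := Pt_inj hM hj; omega
    · have := Pt_inj hM hi; have := Pt_inj hM hj; omega
    · exact absurd hj (Pt_ne_Zt h0 _ _)
  · exact absurd hi (Pt_ne_Zt h0 _ _)

/-- `m` points and `2 m - 3` further points span `m (m - 1) / 2` almost disjoint triangles. -/
theorem choose_two_le_T {m n : ℕ} (hmn : 3 * m ≤ n + 3) : m.choose 2 ≤ T n := by
  classical
  rcases Nat.lt_or_ge m 2 with hm | hm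
  · rw [Nat.choose_eq_zero_of_lt hm]; exact Nat.zero_le _
  set M : ℝ := 2 * m + 1 with hMdef
  have hm2 : (2 : ℝ) ≤ m := by exact_mod_cast hm
  have hM1 : 1 < M := by rw [hMdef]; linarith
  have hM0 : 0 < M := by linarith
  -- the chords
  let C : Finset (Σ _ : ℕ, ℕ) := (Finset.range m).sigma (fun j => Finset.range j)
  have hC : ∀ p ∈ C, p.2 < p.1 ∧ p.1 < m := by
    intro p hp
    simp only [C, Finset.mem_sigma, Finset.mem_range] at hp
    exact ⟨hp.2, hp.1⟩
  let F : Finset (Finset E3) := C.image (fun p => vs M p.2 p.1)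
  let P0 : Finset E3 := (Finset.range m).image (Pt M) ∪ (Finset.Icc 1 (2 * m - 3)).image (Zt M)
  have hP0 : P0.card ≤ n := by
    calc P0.card ≤ ((Finset.range m).image (Pt M)).card +
        ((Finset.Icc 1 (2 * m - 3)).image (Zt M)).card := Finset.card_union_le _ _
      _ ≤ m + (2 * m - 3) := by
          refine Nat.add_le_add (Finset.card_image_le.trans (by simp))
            (Finset.card_image_le.trans (by simp))
      _ ≤ n := by omega
  obtain ⟨P, hP0P, hPn⟩ := Infinite.exists_superset_card_eq P0 n hP0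
  have hbound : ∀ p ∈ C, 2 * (p.1 : ℝ) < M := by
    intro p hp
    have : (p.1 : ℝ) < m := by exact_mod_cast (hC p hp).2
    rw [hMdef]; linarith
  apply le_T
  refine ⟨P, hPn, F, ⟨?_, ?_⟩, ?_⟩
  · intro t ht
    obtain ⟨p, hp, rfl⟩ := Finset.mem_image.1 ht
    obtain ⟨h1, h2⟩ := hC p hp
    refine ⟨?_, vs_card hM1 h1.ne, ?_⟩
    · intro x hx
      apply hP0P
      rw [mem_vs] at hx
      rcases hx with rfl | rfl | rfl
      · exact Finset.mem_union_left _ (Finset.mem_image_of_mem _ (Finset.mem_range.2 (by omega)))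
      · exact Finset.mem_union_left _ (Finset.mem_image_of_mem _ (Finset.mem_range.2 (by omega)))
      · exact Finset.mem_union_right _
          (Finset.mem_image_of_mem _ (Finset.mem_Icc.2 ⟨by omega, by omega⟩))
    · have := not_collinear hM0 (L := p.2 + p.1) h1.ne
      unfold vs
      rw [Finset.coe_insert, Finset.coe_insert, Finset.coe_singleton]
      exact this
  · intro s hs t ht hst
    obtain ⟨p, hp, rfl⟩ := Finset.mem_image.1 hs
    obtain ⟨q, hq, rfl⟩ := Finset.mem_image.1 ht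
    apply almostDisjoint_of
    intro x hx1 hx2
    refine inter (hC p hp).1 (hC q hq).1 (hbound p hp) (hbound q hq) ?_ hx1 hx2
    intro h
    apply hst
    have e1 : p.2 = q.2 := congrArg Prod.fst h
    have e2 : p.1 = q.1 := congrArg Prod.snd h
    simp only [e1, e2]
  · have hinj : Set.InjOn (fun p : (Σ _ : ℕ, ℕ) => vs M p.2 p.1) (C : Set (Σ _ : ℕ, ℕ)) := by
      rintro ⟨p1, p2⟩ hp ⟨q1, q2⟩ hq h
      have := vs_inj hM1 (hC _ hp).1 (hC _ hq).1 h
      have e1 : p2 = q2 := congrArg Prod.fst this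
      have e2 : p1 = q1 := congrArg Prod.snd this
      rw [e1, e2]
    rw [Finset.card_image_of_injOn hinj, Finset.card_sigma]
    simp only [Finset.card_range]
    rw [Finset.sum_range_id, Nat.choose_two_right]

/-- **Kalai's second question** (Q2): the maximum number `T n` of almost disjoint triangles spanned
by `n` points of space grows quadratically.
The first part records that `T n` really is the largest element of `sizes n`. -/
theorem result :
    (∀ n : ℕ, IsGreatest (sizes n) (T n)) ∧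
    (∀ n : ℕ, ((n : ℝ) + 1) * ((n : ℝ) - 2) / 18 ≤ (T n : ℝ)) ∧
    ∃ c : ℝ, 0 < c ∧ ∃ n₀ : ℕ, ∀ n : ℕ, n₀ ≤ n → c * (n : ℝ) ^ 2 ≤ (T n : ℝ) := by
  have main : ∀ n : ℕ, ((n : ℝ) + 1) * ((n : ℝ) - 2) / 18 ≤ (T n : ℝ) := by
    intro n
    have h := choose_two_le_T (m := (n + 3) / 3) (n := n) (by omega)
    have h1 : (((n + 3) / 3 : ℕ).choose 2 : ℝ) ≤ T n := by exact_mod_cast h
    rw [Nat.cast_choose_two] at h1
    have h2 : (n : ℝ) + 1 ≤ 3 * (((n + 3) / 3 : ℕ) : ℝ) := by
      exact_mod_cast (by omega : n + 1 ≤ 3 * ((n + 3) / 3))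
    have h3 : (1 : ℝ) ≤ (((n + 3) / 3 : ℕ) : ℝ) := by
      exact_mod_cast (by omega : 1 ≤ (n + 3) / 3)
    refine le_trans ?_ h1
    nlinarith
  refine ⟨T_isGreatest, main, 1 / 20, by norm_num, 12, fun n hn => le_trans ?_ (main n)⟩
  have : (12 : ℝ) ≤ n := by exact_mod_cast hn
  nlinarith

end Pool.Agent.Results.MP_a19305_co.Quadratic
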