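import Pool.Agent.H42K.Step
import Pool.Agent.H42K.Geo
import Pool.Agent.H42K.ArithA
import Pool.Agent.H42K.ArithB

/-! Almost disjoint triangles in space: a lower bound which is asymptotically
`21/32` of the trivial upper bound `n (n - 1) / 6` (MP_a19305_co). -/

set_option autoImplicit false

namespace Pool.Agent.Results.MP_a19305_co.TwoThirds

open Pool.Agent.H42K

lemma T_isGreatest (n : ℕ) : IsGreatest (sizes n) (T n) := by
  refine ⟨Nat.sSup_mem ?_ (geo_sizes_bddAbove n),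
    fun k hk => le_csSup (geo_sizes_bddAbove n) hk⟩
  obtain ⟨P, -, hP⟩ := Infinite.exists_superset_card_eq (∅ : Finset E3) n (by simp)
  exact ⟨0, P, hP, ∅, ⟨by simp, by simp⟩, rfl⟩

lemma main (n : ℕ) (hn : n ≠ 2) : 7 * n ^ 2 ≤ 64 * T n + 12 * n := by
  obtain ⟨R, hR, hb⟩ := exists_R
  obtain ⟨M, P, F, hM, hc, hF⟩ := exists_cfg stepK R hR n
  have h1 := hb n hn
  have h2 := Cfg.le_T hM hc
  omega

/-- `T n` is the maximum of the set of sizes of almost disjoint families of triangles spanned by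
`n` points of space; it is at least `(7 n ^ 2 - 12 n) / 64` for every `n ≠ 2`, and so it grows
quadratically. -/
theorem result :
    (∀ n : ℕ, IsGreatest (sizes n) (T n)) ∧
    (∀ n : ℕ, n ≠ 2 → (7 * (n : ℝ) ^ 2 - 12 * n) / 64 ≤ (T n : ℝ)) ∧
    ∃ c : ℝ, 0 < c ∧ ∃ n₀ : ℕ, ∀ n : ℕ, n₀ ≤ n → c * (n : ℝ) ^ 2 ≤ (T n : ℝ) := by
  have hmain : ∀ n : ℕ, n ≠ 2 → (7 * (n : ℝ) ^ 2 - 12 * n) / 64 ≤ (T n : ℝ) := by
    intro n hn
    have h : (7 * (n : ℝ) ^ 2) ≤ 64 * (T n : ℝ) + 12 * n := by exact_mod_cast main n hn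
    linarith
  refine ⟨T_isGreatest, hmain, 1 / 16, by norm_num, 4, fun n hn => le_trans ?_ (hmain n (by omega))⟩
  have : (4 : ℝ) ≤ n := by exact_mod_cast hn
  nlinarith

end Pool.Agent.Results.MP_a19305_co.TwoThirds
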